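import Mathlib
import Pool.Agent.X119.BP.Stm

/-!
F1 part for `MP_32607b_nt` (statement `Pool.Agent.X119.BP.S_F1`).
-/

namespace Pool.Agent.X327.BPF

open Finset Pool.Agent.X119.BP

theorem choose_mod (p h : ℕ) (hp : p.Prime) : ((Nat.choose h p : ℕ) : ZMod p) = ((h / p : ℕ) : ZMod p) := by
  have : Fact p.Prime := ⟨hp⟩
  have := Choose.choose_modEq_choose_mod_mul_choose_div_nat (n := h) (k := p) (p := p)
  rw [Nat.mod_self, Nat.div_self hp.pos, Nat.choose_zero_right, Nat.choose_one_right, one_mul] at this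
  exact (ZMod.natCast_eq_natCast_iff _ _ _).2 this

/-- block sums -/
def T (p e y : ℕ) : ℕ := ∑ c ∈ range p, (Nat.choose (p * y + c) p) ^ e

theorem sum_block (p n : ℕ) (f : ℕ → ℕ) :
    ∑ h ∈ range (p * n), f h = ∑ y ∈ range n, ∑ c ∈ range p, f (p * y + c) := by
  induction n with
  | zero => simp
  | succ n ih => rw [Nat.mul_succ, Finset.sum_range_add, sum_range_succ, ih]

theorem S_eq (p e n : ℕ) : S p e (p * n) = ∑ y ∈ range n, T p e y := sum_block p n _

theorem T_dvd (p e y : ℕ) (hp : p.Prime) : p ∣ T p e y := by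
  rw [← ZMod.natCast_eq_zero_iff]
  unfold T
  push_cast
  have h : ∀ c ∈ range p, ((Nat.choose (p * y + c) p : ℕ) : ZMod p) ^ e = (y : ZMod p) ^ e := by
    intro c hc
    rw [choose_mod p _ hp]
    have : (p * y + c) / p = y := by
      rw [Nat.mul_add_div hp.pos, Nat.div_eq_of_lt (mem_range.1 hc), add_zero]
    rw [this]
  rw [sum_congr rfl h]
  simp

theorem partA (p e n : ℕ) (hp : p.Prime) : p ∣ S p e (p * n) := by
  rw [S_eq]
  exact dvd_sum fun y _ => T_dvd p e y hp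

theorem cast_desc (h k : ℕ) : ((h.descFactorial k : ℕ) : ℤ) = ∏ i ∈ range k, ((h : ℤ) - i) := by
  induction k with
  | zero => simp
  | succ k ih =>
    rw [Nat.descFactorial_succ, prod_range_succ, ← ih]
    rcases le_or_gt k h with hk | hk
    · push_cast [Nat.cast_sub hk]
      ring
    · rw [Nat.descFactorial_eq_zero_iff_lt.2 hk]
      simp

/-- the product of the factors other than the one divisible by `p` -/
def w (p c : ℕ) (z : ℤ) : ℤ := ∏ i ∈ (range p).erase c, (z + ((c : ℤ) - i))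

def g (p e : ℕ) (z : ℤ) : ℤ := ∑ c ∈ range p, (w p c z) ^ e

theorem key (p y c : ℕ) (hp : p.Prime) (hc : c < p) :
    (((p - 1).factorial : ℕ) : ℤ) * (Nat.choose (p * y + c) p : ℕ) = (y : ℤ) * w p c ((p : ℤ) * y) := by
  have h1 := Nat.descFactorial_eq_factorial_mul_choose (p * y + c) p
  have h2 := cast_desc (p * y + c) p
  rw [h1, ← Finset.mul_prod_erase (range p) _ (mem_range.2 hc)] at h2
  have h3 : (p.factorial : ℤ) = (p : ℤ) * ((p - 1).factorial : ℕ) := by
    rw [← Nat.mul_factorial_pred hp.ne_zero]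
    push_cast
    ring
  have hp0 : (p : ℤ) ≠ 0 := by exact_mod_cast hp.ne_zero
  apply mul_left_cancel₀ hp0
  push_cast at h2
  rw [h3] at h2
  have h4 : w p c ((p : ℤ) * y) = ∏ x ∈ (range p).erase c, ((p : ℤ) * y + c - x) := by
    unfold w
    refine prod_congr rfl fun i _ => by ring
  rw [h4]
  linear_combination h2

theorem keyT (p e y : ℕ) (hp : p.Prime) :
    ((((p - 1).factorial) ^ e : ℕ) : ℤ) * (T p e y : ℕ) = (y : ℤ) ^ e * g p e ((p : ℤ) * y) := by
  unfold T g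
  push_cast
  rw [mul_sum, mul_sum]
  refine sum_congr rfl fun c hc => ?_
  rw [← mul_pow, ← mul_pow, key p y c hp (mem_range.1 hc)]

theorem w_reflect (p c : ℕ) (z : ℤ) (hodd : Odd p) (hc : c < p) : w p (p - 1 - c) z = w p c (-z) := by
  have h1 : w p (p - 1 - c) z = ∏ i ∈ (range p).erase c, (z - ((c : ℤ) - i)) := by
    unfold w
    refine Finset.prod_bij' (fun i _ => p - 1 - i) (fun i _ => p - 1 - i) ?_ ?_ ?_ ?_ ?_
    · intro i hi
      simp only [mem_erase, mem_range] at hi ⊢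
      omega
    · intro i hi
      simp only [mem_erase, mem_range] at hi ⊢
      omega
    · intro i hi
      simp only [mem_erase, mem_range] at hi
      omega
    · intro i hi
      simp only [mem_erase, mem_range] at hi
      omega
    · intro i hi
      simp only [mem_erase, mem_range] at hi
      have e1 : ((p - 1 - c : ℕ) : ℤ) = (p : ℤ) - 1 - c := by omega
      have e2 : ((p - 1 - i : ℕ) : ℤ) = (p : ℤ) - 1 - i := by omega
      rw [e1, e2]
      ring
  rw [h1]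
  unfold w
  have h2 : ∀ i ∈ (range p).erase c, (z - ((c : ℤ) - i)) = (-1) * (-z + ((c : ℤ) - i)) := by
    intro i _
    ring
  rw [prod_congr rfl h2, prod_mul_distrib, prod_const, card_erase_of_mem (mem_range.2 hc), card_range]
  have h3 : Even (p - 1) := by
    obtain ⟨k, hk⟩ := hodd
    exact ⟨k, by omega⟩
  rw [h3.neg_one_pow, one_mul]

theorem g_even (p e : ℕ) (z : ℤ) (hodd : Odd p) : g p e (-z) = g p e z := by
  unfold g
  rw [← Finset.sum_range_reflect (fun c => w p c z ^ e) p]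
  refine sum_congr rfl fun c hc => ?_
  rw [w_reflect p c z hodd (mem_range.1 hc)]

open Polynomial in
theorem g_poly (p e : ℕ) : ∃ P : Polynomial ℤ, ∀ z, g p e z = P.eval z := by
  refine ⟨∑ c ∈ range p, (∏ i ∈ (range p).erase c, (X + C ((c : ℤ) - i))) ^ e, fun z => ?_⟩
  unfold g w
  rw [Polynomial.eval_finsetSum]
  refine sum_congr rfl fun c _ => ?_
  rw [Polynomial.eval_pow, Polynomial.eval_prod]
  refine congrArg (· ^ e) (prod_congr rfl fun i _ => ?_)
  simp

theorem g_cong (p e : ℕ) (z : ℤ) (hodd : Odd p) : ∃ k : ℤ, 2 * g p e z = 2 * g p e 0 + k * z ^ 2 := by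
  obtain ⟨P, hP⟩ := g_poly p e
  obtain ⟨k, hk⟩ := P.binomExpansion 0 z
  obtain ⟨k', hk'⟩ := P.binomExpansion 0 (-z)
  refine ⟨k + k', ?_⟩
  have h1 := g_even p e z hodd
  rw [hP, hP] at h1
  rw [hP, hP]
  rw [zero_add] at hk hk'
  linear_combination hk + hk' - h1

theorem g_dvd (p e : ℕ) (y : ℤ) (hodd : Odd p) : (p : ℤ) ^ 2 ∣ g p e ((p : ℤ) * y) - g p e 0 := by
  obtain ⟨k, hk⟩ := g_cong p e ((p : ℤ) * y) hodd
  have hcop : IsCoprime ((p : ℤ) ^ 2) 2 := by
    apply IsCoprime.pow_left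
    obtain ⟨m, hm⟩ := hodd
    refine ⟨1, -(m : ℤ), ?_⟩
    push_cast [hm]
    ring
  refine hcop.dvd_of_dvd_mul_left ⟨k * y ^ 2, ?_⟩
  linear_combination hk

theorem g_zero (p e : ℕ) (hp : p.Prime) (hodd : Odd p) : (p : ℤ) ∣ g p e 0 := by
  have h1 : (p : ℤ) ∣ g p e ((p : ℤ) * (1 : ℕ)) := by
    have h := keyT p e 1 hp
    rw [Nat.cast_one, one_pow, one_mul] at h
    rw [Nat.cast_one, ← h]
    exact Dvd.dvd.mul_left (by exact_mod_cast T_dvd p e 1 hp) _
  have h2 := (Dvd.intro_left ((p : ℤ) ^ 1) (by ring : (p : ℤ) ^ 1 * (p : ℤ) = (p : ℤ) ^ 2)).trans (g_dvd p e ((1 : ℕ) : ℤ) hodd)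
  have h3 := dvd_sub h1 h2
  simpa using h3

theorem sum_pow (p e u : ℕ) (hodd : Odd p) (he : Odd e) :
    (p : ℤ) ∣ ∑ y ∈ range (p * u), (y : ℤ) ^ e := by
  have hN : (p : ℤ) ∣ ((p * u : ℕ) : ℤ) := ⟨u, by push_cast; ring⟩
  have h1 : (p : ℤ) ∣ ∑ y ∈ range (p * u + 1), (y : ℤ) ^ e := by
    have hr := Finset.sum_range_reflect (fun y => (y : ℤ) ^ e) (p * u + 1)
    have h2 : (p : ℤ) ∣ 2 * ∑ y ∈ range (p * u + 1), (y : ℤ) ^ e := by
      have h3 : 2 * ∑ y ∈ range (p * u + 1), (y : ℤ) ^ e =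
          ∑ y ∈ range (p * u + 1), ((y : ℤ) ^ e + ((p * u + 1 - 1 - y : ℕ) : ℤ) ^ e) := by
        rw [sum_add_distrib, hr]
        ring
      rw [h3]
      refine dvd_sum fun y hy => ?_
      have hy' : y ≤ p * u := by
        have := mem_range.1 hy
        omega
      have e1 : ((p * u + 1 - 1 - y : ℕ) : ℤ) = ((p * u : ℕ) : ℤ) - y := by
        rw [Nat.add_sub_cancel, Nat.cast_sub hy']
      rw [e1]
      have h4 : (y : ℤ) + (((p * u : ℕ) : ℤ) - y) ∣ (y : ℤ) ^ e + (((p * u : ℕ) : ℤ) - y) ^ e :=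
        he.add_dvd_pow_add_pow _ _
      refine dvd_trans ?_ h4
      simpa using hN
    have hcop : IsCoprime (p : ℤ) 2 := by
      obtain ⟨m, hm⟩ := hodd
      refine ⟨1, -(m : ℤ), ?_⟩
      push_cast [hm]
      ring
    exact hcop.dvd_of_dvd_mul_left h2
  rw [sum_range_succ] at h1
  have he0 : e ≠ 0 := by
    rintro rfl
    exact absurd he (by decide)
  exact (dvd_add_left (dvd_pow hN he0)).1 h1

theorem partB (p e u : ℕ) (hp : p.Prime) (hodd : Odd p) (he : Odd e) : p ^ 2 ∣ S p e (p ^ 2 * u) := by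
  have h0 : p ^ 2 * u = p * (p * u) := by ring
  rw [h0, S_eq]
  have h1 : ((p : ℤ) ^ 2) ∣ ((((p - 1).factorial) ^ e : ℕ) : ℤ) * ((∑ y ∈ range (p * u), T p e y : ℕ) : ℤ) := by
    rw [Nat.cast_sum, mul_sum]
    have h2 : ∑ y ∈ range (p * u), ((((p - 1).factorial) ^ e : ℕ) : ℤ) * (T p e y : ℕ) =
        ∑ y ∈ range (p * u), (y : ℤ) ^ e * (g p e ((p : ℤ) * y) - g p e 0) +
          (∑ y ∈ range (p * u), (y : ℤ) ^ e) * g p e 0 := by
      rw [sum_mul, ← sum_add_distrib]
      refine sum_congr rfl fun y _ => ?_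
      rw [keyT p e y hp]
      ring
    rw [h2]
    refine dvd_add (dvd_sum fun y _ => Dvd.dvd.mul_left (g_dvd p e y hodd) _) ?_
    rw [pow_two]
    exact mul_dvd_mul (sum_pow p e u hodd he) (g_zero p e hp hodd)
  have h3 : p ^ 2 ∣ ((p - 1).factorial) ^ e * ∑ y ∈ range (p * u), T p e y := by
    exact_mod_cast h1
  refine Nat.Coprime.dvd_of_dvd_mul_left ?_ h3
  apply Nat.Coprime.pow
  rw [hp.coprime_iff_not_dvd, hp.dvd_factorial]
  have := hp.pos
  omega

theorem f1 : S_F1 := by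
  intro p e hp hodd he _
  exact ⟨fun n => partA p e n hp, fun u => partB p e u hp hodd he⟩

end Pool.Agent.X327.BPF
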